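import Pool.Agent.W601.RP.Stm2

/-!
# Project RP: parities avoiding the codes in a sparse set of coordinates (part AV)
-/

set_option autoImplicit false

namespace Pool.Agent.W412.RP

open Pool.Agent.W601.RP

/-- the parity of the `i`-th entry -/
def par (s : List ℕ) (i : ℕ) : Bool := decide (s.getD i 0 % 2 = 1)

/-- the functions with given values at the places below `n` -/
def Bs (b : ℕ → Bool) (n m : ℕ) : Finset (Fin m → Bool) :=
  Fintype.piFinset fun i : Fin m => if (i : ℕ) < n then {b i} else Finset.univ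

theorem mem_Bs {b : ℕ → Bool} {n m : ℕ} {e : Fin m → Bool} :
    e ∈ Bs b n m ↔ ∀ i : Fin m, (i : ℕ) < n → e i = b i := by
  unfold Bs
  rw [Fintype.mem_piFinset]
  refine forall_congr' fun i => ?_
  by_cases h : (i : ℕ) < n
  · simp [h]
  · simp [h]

theorem card_Bs (b : ℕ → Bool) {n m : ℕ} (h : n ≤ m) :
    ((Bs b n m).card : ℝ) = (1 / 2 : ℝ) ^ n * 2 ^ m := by
  unfold Bs
  rw [Fintype.card_piFinset]
  push_cast
  have h1 : ∀ i : Fin m, ((if (i : ℕ) < n then ({b i} : Finset Bool) else Finset.univ).card : ℝ) =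
      (if (i : ℕ) < n then (1 / 2 : ℝ) else 1) * 2 := by
    intro i
    by_cases h : (i : ℕ) < n
    · simp [h]
    · simp [h]
  rw [Finset.prod_congr rfl fun i _ => h1 i, Finset.prod_mul_distrib, Finset.prod_const,
    Finset.card_univ, Fintype.card_fin]
  congr 1
  rw [Fin.prod_univ_eq_prod_range (fun i => if i < n then (1 / 2 : ℝ) else 1) m,
    ← Finset.prod_filter, Finset.prod_const]
  congr 1
  have h2 : (Finset.range m).filter (fun i => i < n) = Finset.range n := by
    ext i
    simp only [Finset.mem_filter, Finset.mem_range]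
    omega
  rw [h2, Finset.card_range]

theorem nu_nonneg (t : ℕ) : 0 ≤ nu t := by
  unfold nu
  split_ifs
  · positivity
  · exact le_rfl

/-- the closed set of good parity functions for a coordinate -/
def Cu (u : ℕ) : Set (ℕ → Bool) :=
  {e | IsNode u → ∀ s ∈ (lt u).2, ∃ i, i < nL (lt u) ∧ e i ≠ par s i}

theorem isClosed_Cu (u : ℕ) : IsClosed (Cu u) := by
  classical
  by_cases hu : IsNode u
  · have h : Cu u = ⋂ s ∈ {s | s ∈ (lt u).2}, ⋃ i ∈ {i | i < nL (lt u)},
        (fun e : ℕ → Bool => e i) ⁻¹' {par s i}ᶜ := by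
      ext e
      simp only [Cu, Set.mem_ofPred_eq, Set.mem_iInter, Set.mem_iUnion, Set.mem_preimage,
        Set.mem_compl_iff, Set.mem_singleton_iff, exists_prop]
      exact ⟨fun h => h hu, fun h _ => h⟩
    rw [h]
    refine isClosed_biInter fun s _ => Set.Finite.isClosed_biUnion (Set.finite_lt_nat _) fun i _ => ?_
    exact (isClosed_discrete _).preimage (continuous_apply i)
  · have h : Cu u = Set.univ := by
      ext e
      simp only [Cu, Set.mem_ofPred_eq, Set.mem_univ, iff_true]
      exact fun h => absurd h hu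
    rw [h]
    exact isClosed_univ

theorem fin_case (W' : Finset ℕ) (h : ∑ u ∈ W', nu u < 1) : ∃ e : ℕ → Bool, ∀ u ∈ W', e ∈ Cu u := by
  classical
  set m : ℕ := W'.sup fun u => nL (lt u) with hm
  have hle : ∀ u ∈ W', nL (lt u) ≤ m := fun u hu =>
    Finset.le_sup (f := fun u => nL (lt u)) hu
  set B : ℕ → Finset (Fin m → Bool) := fun u =>
    if IsNode u then (lt u).2.toFinset.biUnion fun s => Bs (par s) (nL (lt u)) m else ∅ with hB
  have hcard : ∀ u ∈ W', ((B u).card : ℝ) ≤ nu u * 2 ^ m := by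
    intro u hu
    by_cases hn : IsNode u
    · simp only [hB, nu, if_pos hn]
      calc (((lt u).2.toFinset.biUnion fun s => Bs (par s) (nL (lt u)) m).card : ℝ)
          ≤ ∑ s ∈ (lt u).2.toFinset, ((Bs (par s) (nL (lt u)) m).card : ℝ) := by
            exact_mod_cast Finset.card_biUnion_le
        _ = ∑ s ∈ (lt u).2.toFinset, (1 / 2 : ℝ) ^ (nL (lt u)) * 2 ^ m :=
            Finset.sum_congr rfl fun s _ => card_Bs _ (hle u hu)
        _ = ((lt u).2.toFinset.card : ℝ) * ((1 / 2 : ℝ) ^ (nL (lt u)) * 2 ^ m) := by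
            rw [Finset.sum_const, nsmul_eq_mul]
        _ ≤ ((lt u).2.length : ℝ) * ((1 / 2 : ℝ) ^ (nL (lt u)) * 2 ^ m) := by
            refine mul_le_mul_of_nonneg_right ?_ (by positivity)
            exact_mod_cast List.toFinset_card_le _
        _ = _ := by ring
    · simp only [hB, nu, if_neg hn]
      simp
  have hex : ∃ e : Fin m → Bool, ∀ u ∈ W', e ∉ B u := by
    by_contra hcon
    push Not at hcon
    have h1 : (Finset.univ : Finset (Fin m → Bool)) ⊆ W'.biUnion B := by
      intro e _
      obtain ⟨u, hu, hu'⟩ := hcon e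
      exact Finset.mem_biUnion.2 ⟨u, hu, hu'⟩
    have h2 : (((Finset.univ : Finset (Fin m → Bool)).card : ℕ) : ℝ) ≤
        ∑ u ∈ W', ((B u).card : ℝ) := by
      have := (Finset.card_le_card h1).trans Finset.card_biUnion_le
      exact_mod_cast this
    rw [Finset.card_univ, Fintype.card_fun, Fintype.card_bool, Fintype.card_fin] at h2
    push_cast at h2
    have h3 : ∑ u ∈ W', ((B u).card : ℝ) ≤ (∑ u ∈ W', nu u) * 2 ^ m := by
      rw [Finset.sum_mul]
      exact Finset.sum_le_sum hcard
    have h4 : (0 : ℝ) < 2 ^ m := by positivity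
    nlinarith
  obtain ⟨e, he⟩ := hex
  refine ⟨fun i => if hi : i < m then e ⟨i, hi⟩ else false, fun u hu hn s hs => ?_⟩
  have h1 := he u hu
  simp only [hB, if_pos hn, Finset.mem_biUnion, List.mem_toFinset, not_exists, not_and] at h1
  have h2 := h1 s hs
  rw [mem_Bs] at h2
  push Not at h2
  obtain ⟨i, hi, hne⟩ := h2
  refine ⟨i, hi, ?_⟩
  simpa using hne

theorem av : S_NODE → S_AV := by
  classical
  intro _ W hsum hlt
  have hne : ((Set.univ : Set (ℕ → Bool)) ∩ ⋂ u : W, Cu u).Nonempty := by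
    refine isCompact_univ.inter_iInter_nonempty (fun u : W => Cu u) (fun u => isClosed_Cu u) ?_
    intro F
    have h1 : ∑ u ∈ F.map (Function.Embedding.subtype _), nu u < 1 := by
      refine lt_of_le_of_lt ?_ hlt
      refine le_trans ?_ (hsum.sum_le_tsum (F.map (Function.Embedding.subtype _)) fun i _ => ?_)
      · refine Finset.sum_le_sum fun u hu => ?_
        obtain ⟨v, _, rfl⟩ := Finset.mem_map.1 hu
        rw [Set.indicator_of_mem]
        exact v.2
      · exact Set.indicator_nonneg (fun t _ => nu_nonneg t) i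
    obtain ⟨e, he⟩ := fin_case _ h1
    refine ⟨e, Set.mem_univ _, ?_⟩
    simp only [Set.mem_iInter]
    intro u hu
    exact he u (Finset.mem_map.2 ⟨u, hu, rfl⟩)
  obtain ⟨e, -, he⟩ := hne
  rw [Set.mem_iInter] at he
  refine ⟨fun i => if e i then 1 else 0, fun i => by
    show (if e i = true then 1 else 0) < 2
    split_ifs <;> norm_num, ?_⟩
  intro u hu q hq
  unfold x
  rw [if_neg]
  rintro ⟨hn, hmem⟩
  obtain ⟨i, hi, hne⟩ := he ⟨u, hu⟩ hn _ hmem
  apply hne
  have h1 : (pre q (nL (lt u))).getD i 0 = q i := by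
    simp [pre, List.getD_eq_getElem?_getD, hi]
  unfold par
  rw [h1, hq i]
  rcases h2 : e i with _ | _
  · simp [h2]
  · simp [h2]

end Pool.Agent.W412.RP
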